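import Mathlib

namespace Pool.Agent.Results.MP_199736_pr.NotExtremal

open Finset

/-- total variation distance: the largest `|μ A - ν A|` over subsets `A` -/
noncomputable def tv {Ω : Type} (μ ν : Ω → ℝ) : ℝ :=
  ⨆ A : Finset Ω, |∑ z ∈ A, μ z - ∑ z ∈ A, ν z|

/-- `(P t)_{t ≥ 0}` is the continuous semigroup of kernels of a continuous-time Markov chain -/
def IsMarkov {Ω : Type} [Fintype Ω] [DecidableEq Ω] (P : ℝ → Matrix Ω Ω ℝ) : Prop :=
  P 0 = 1 ∧ (∀ s t, 0 ≤ s → 0 ≤ t → P (s + t) = P s * P t) ∧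
    (∀ t, 0 ≤ t → (∀ x y, 0 ≤ P t x y) ∧ ∀ x, ∑ y, P t x y = 1) ∧
    ∀ x y, Continuous fun t => P t x y

/-- monotone chain -/
def IsMono {Ω : Type} [PartialOrder Ω] (P : ℝ → Matrix Ω Ω ℝ) : Prop :=
  ∀ t, 0 ≤ t → ∀ x y, x ≤ y → ∀ A : Finset Ω, IsUpperSet (A : Set Ω) →
    ∑ z ∈ A, P t x z ≤ ∑ z ∈ A, P t y z

/-- reversible chain (with a strictly positive reversing probability) -/
def IsRev {Ω : Type} [Fintype Ω] (P : ℝ → Matrix Ω Ω ℝ) : Prop :=
  ∃ π : Ω → ℝ, (∀ x, 0 < π x) ∧ ∑ x, π x = 1 ∧ ∀ t, 0 ≤ t → ∀ x y, π x * P t x y = π y * P t y x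

/-- one spin, resampled at rate 1, being `true` with probability `a` -/
noncomputable def K (a e : ℝ) (x y : Bool) : ℝ :=
  (if x = y then e else 0) + (1 - e) * (if y then a else 1 - a)

noncomputable def Q (t : ℝ) : Matrix (Bool × Bool) (Bool × Bool) ℝ :=
  Matrix.of fun x y => K (1 / 3) (Real.exp (-t)) x.1 y.1 * K (2 / 3) (Real.exp (-t)) x.2 y.2

theorem sum_eq (A : Finset (Bool × Bool)) (f : Bool × Bool → ℝ) : ∑ z ∈ A, f z =
    (if (true, true) ∈ A then f (true, true) else 0) + (if (true, false) ∈ A then f (true, false) else 0)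
    + (if (false, true) ∈ A then f (false, true) else 0)
    + (if (false, false) ∈ A then f (false, false) else 0) := by
  rw [← Finset.univ_inter A, ← Finset.sum_ite_mem, Fintype.sum_prod_type]
  simp only [Fintype.sum_bool, Finset.univ_inter]
  ring

theorem result : ∃ P : ℝ → Matrix (Bool × Bool) (Bool × Bool) ℝ,
    IsMarkov P ∧ IsMono P ∧ IsRev P ∧ (∀ n : ℕ, P n = P 1 ^ n) ∧
      ∀ t, 0 < t → tv (P t ⊤) (P t ⊥) < tv (P t (true, false)) (P t (false, true)) := by
  have hsemi : ∀ s t, Q (s + t) = Q s * Q t := by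
    intro s t
    ext ⟨a, b⟩ ⟨c, d⟩
    simp only [Q, Matrix.mul_apply, Matrix.of_apply, Fintype.sum_prod_type, Fintype.sum_bool,
      neg_add, Real.exp_add]
    cases a <;> cases b <;> cases c <;> cases d <;> simp [K] <;> ring
  have h0 : Q 0 = 1 := by
    ext ⟨a, b⟩ ⟨c, d⟩
    cases a <;> cases b <;> cases c <;> cases d <;> simp [Q, K]
  have he : ∀ t : ℝ, 0 ≤ t → 0 < Real.exp (-t) ∧ Real.exp (-t) ≤ 1 := fun t ht =>
    ⟨Real.exp_pos _, Real.exp_le_one_iff.2 (by linarith)⟩
  refine ⟨Q, ⟨h0, fun s t _ _ => hsemi s t, ?_, ?_⟩, ?_, ?_, ?_, ?_⟩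
  · intro t ht
    obtain ⟨h1, h2⟩ := he t ht
    constructor
    · rintro ⟨a, b⟩ ⟨c, d⟩
      have : ∀ a' : ℝ, 0 ≤ a' → a' ≤ 1 → ∀ x y, 0 ≤ K a' (Real.exp (-t)) x y := by
        intro a' p q x y
        have := mul_nonneg (sub_nonneg.2 h2) p
        have := mul_nonneg (sub_nonneg.2 h2) (sub_nonneg.2 q)
        cases x <;> cases y <;> simp [K] <;> linarith
      exact mul_nonneg (this _ (by norm_num) (by norm_num) _ _) (this _ (by norm_num) (by norm_num) _ _)
    · rintro ⟨a, b⟩
      simp only [Q, Matrix.of_apply, Fintype.sum_prod_type, Fintype.sum_bool]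
      cases a <;> cases b <;> simp [K] <;> ring
  · rintro ⟨a, b⟩ ⟨c, d⟩
    simp only [Q, Matrix.of_apply, K]
    cases a <;> cases b <;> cases c <;> cases d <;> simp <;> fun_prop
  · rintro t ht ⟨a, b⟩ ⟨c, d⟩ hxy A hA
    obtain ⟨h1, h2⟩ := he t ht
    have u1 : (false, false) ∈ A → (true, false) ∈ A := fun h => hA (by decide) h
    have u2 : (false, false) ∈ A → (false, true) ∈ A := fun h => hA (by decide) h
    have u3 : (true, false) ∈ A → (true, true) ∈ A := fun h => hA (by decide) h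
    have u4 : (false, true) ∈ A → (true, true) ∈ A := fun h => hA (by decide) h
    rw [sum_eq, sum_eq]
    simp only [Q, Matrix.of_apply]
    generalize Real.exp (-t) = e at h1 h2
    have h3 := mul_nonneg h1.le (sub_nonneg.2 h2)
    cases a <;> cases b <;> cases c <;> cases d <;> first
      | exact absurd hxy (by decide)
      | exact le_rfl
      | (split_ifs <;> first | tauto | (simp [K] <;> nlinarith))
  · refine ⟨fun x => (if x.1 then 1 / 3 else 2 / 3) * (if x.2 then 2 / 3 else 1 / 3), ?_, ?_, ?_⟩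
    · rintro ⟨a, b⟩; cases a <;> cases b <;> norm_num
    · simp only [Fintype.sum_prod_type, Fintype.sum_bool]; norm_num
    · rintro t - ⟨a, b⟩ ⟨c, d⟩
      simp only [Q, Matrix.of_apply]
      cases a <;> cases b <;> cases c <;> cases d <;> simp [K] <;> ring
  · intro n
    induction n with
    | zero => simpa using h0
    | succ n ih => push_cast; rw [hsemi, ih, pow_succ]
  · intro t ht
    have h1 : 0 < Real.exp (-t) := Real.exp_pos _
    have h2 : Real.exp (-t) < 1 := Real.exp_lt_one_iff.2 (by linarith)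
    have hA : tv (Q t ⊤) (Q t ⊥) ≤ Real.exp (-t) := by
      refine ciSup_le fun A => ?_
      rw [sum_eq, sum_eq, show (⊤ : Bool × Bool) = (true, true) from rfl,
        show (⊥ : Bool × Bool) = (false, false) from rfl]
      simp only [Q, Matrix.of_apply]
      generalize Real.exp (-t) = e at h1 h2
      have h3 := mul_pos h1 (sub_pos.2 h2)
      rw [abs_le]
      split_ifs <;> simp [K] <;> first | nlinarith | (constructor <;> nlinarith)
    refine hA.trans_lt (lt_of_lt_of_le ?_ (le_ciSup (Set.finite_range _).bddAbove {(false, true)}))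
    simp only [Finset.sum_singleton, Q, Matrix.of_apply]
    generalize Real.exp (-t) = e at h1 h2
    have h3 := mul_pos h1 (sub_pos.2 h2)
    rw [lt_abs]
    right
    simp [K]
    nlinarith

end Pool.Agent.Results.MP_199736_pr.NotExtremal
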